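import Pool.Agent.Lib.MP_6bc78b_nt.GP.H90.MainB2g
import Pool.Agent.Lib.MP_6bc78b_nt.GP.H43.Defs10t

/-! Project GP10 (MP_6bc78b_nt), helper90: row MAINT2. -/

set_option autoImplicit false

open Complex Filter Topology MeasureTheory ArithmeticFunction Set
open scoped ENNReal

namespace Pool.Agent.Lib.MP_6bc78b_nt.GP.H90

open Pool.Agent.Lib.MP_6bc78b_nt.GP.G10

theorem growthT6 (K : ℝ) (hK : 0 < K) :
    ∀ᶠ T : ℝ in atTop, K * Real.exp (6 * (Real.log T / 50)) ≤ T := by
  filter_upwards [Real.tendsto_log_atTop.eventually_ge_atTop (2 * K),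
    Real.tendsto_log_atTop.eventually_gt_atTop 0, eventually_gt_atTop 0] with T e2 e3 e4
  have h5 : K ≤ Real.exp (Real.log T / 2) := by
    have := Real.add_one_le_exp (Real.log T / 2)
    linarith
  have h4 : 6 * (Real.log T / 50) ≤ Real.log T / 2 := by linarith
  calc K * Real.exp (6 * (Real.log T / 50)) ≤
      Real.exp (Real.log T / 2) * Real.exp (Real.log T / 2) :=
        mul_le_mul h5 (Real.exp_le_exp.2 h4) (Real.exp_pos _).le (Real.exp_pos _).le
    _ = T := by rw [← Real.exp_add, add_halves, Real.exp_log e4]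

theorem growthT_len : ∀ᶠ T : ℝ in atTop, 0 ≤ Real.log T / 100 ∧
    2 * (Real.log T / 100) ≤ Real.log T / 50 ∧
    8000 * Real.log (Real.log T) ≤ Real.log T / 50 := by
  have h2 : ∀ᶠ y : ℝ in atTop, ‖Real.log y‖ ≤ (1 / 400000) * ‖y‖ :=
    Real.isLittleO_log_id_atTop.bound (by norm_num)
  filter_upwards [Real.tendsto_log_atTop.eventually h2,
    Real.tendsto_log_atTop.eventually_gt_atTop 0] with T e2 e3
  refine ⟨by linarith, by linarith, ?_⟩
  rw [Real.norm_of_nonneg e3.le] at e2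
  have h4 := (Real.le_norm_self _).trans e2
  linarith

/-- **MAINT2.** -/
theorem maint2 : MAINT2Statement := by
  obtain ⟨C, hC, h⟩ := mainb2_gen growthT_len growthT6
  refine ⟨C, hC, fun lam ε hlam hε => ?_⟩
  obtain ⟨T0, hT0, h1⟩ := h lam ε hlam hε
  refine ⟨T0, hT0, fun T a S β hT ha1 ha2 hM => h1 T a S β hT ha1 ha2 ?_⟩
  have h2 : T ^ (1 / 100 : ℝ) = Real.exp (Real.log T / 100) := by
    rw [Real.rpow_def_of_pos (by linarith)]
    congr 1
    ring
  rw [← h2]
  exact hM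

end Pool.Agent.Lib.MP_6bc78b_nt.GP.H90
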