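import Pool.Agent.Lib.MP_6bc78b_nt.GP.H90.Msq

/-! Project GP10 (MP_6bc78b_nt), helper90: the diagonal of the mean square of the left line, and
greatest common divisors of products over blocks of primes. -/

set_option autoImplicit false

open MeasureTheory Finset

namespace Pool.Agent.Lib.MP_6bc78b_nt.GP.H90

/-- the pairs `(n, n')` with `n m' = n' m` are the multiples of one pair -/
theorem pairs {m m' n n' : ℕ} (hm : 1 ≤ m) (h : n * m' = n' * m) :
    ∃ k : ℕ, n = k * (m / m.gcd m') ∧ n' = k * (m' / m.gcd m') := by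
  have hg : 0 < m.gcd m' := Nat.gcd_pos_of_pos_left _ hm
  obtain ⟨a, ha⟩ := Nat.gcd_dvd_left m m'
  obtain ⟨a', ha'⟩ := Nat.gcd_dvd_right m m'
  set g := m.gcd m' with hgd
  have h1 : m / g = a := by
    rw [ha]
    exact Nat.mul_div_cancel_left a hg
  have h2 : m' / g = a' := by
    rw [ha']
    exact Nat.mul_div_cancel_left a' hg
  have hco : Nat.Coprime a a' := by
    have := Nat.coprime_div_gcd_div_gcd (m := m) (n := m') hg
    rwa [← hgd, h1, h2] at this
  have h3 : n * a' = n' * a := by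
    have h4 : g * (n * a') = g * (n' * a) := by
      calc g * (n * a') = n * (g * a') := by ring
        _ = n * m' := by rw [← ha']
        _ = n' * m := h
        _ = n' * (g * a) := by rw [← ha]
        _ = g * (n' * a) := by ring
    exact Nat.eq_of_mul_eq_mul_left hg h4
  have ha0 : 0 < a := by
    rcases Nat.eq_zero_or_pos a with h5 | h5
    · rw [h5, mul_zero] at ha
      omega
    · exact h5
  have h5 : a ∣ n := by
    have : a ∣ n * a' := ⟨n', by rw [h3]; ring⟩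
    exact hco.dvd_of_dvd_mul_right this
  obtain ⟨k, rfl⟩ := h5
  refine ⟨k, by rw [h1]; ring, ?_⟩
  rw [h2]
  have h6 : a * (k * a') = a * n' := by
    calc a * (k * a') = a * k * a' := by ring
      _ = n' * a := h3
      _ = a * n' := by ring
  exact (Nat.eq_of_mul_eq_mul_left ha0 h6).symm

/-- The size of the coefficient. -/
noncomputable def cf (lam : ℝ) (n m : ℕ) : ℝ :=
  1 / Real.sqrt (n * m) / (1 + lam * |Real.log n - Real.log m|)

theorem cf_nonneg {lam : ℝ} (hl : 0 < lam) (n m : ℕ) : 0 ≤ cf lam n m := by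
  unfold cf
  positivity

theorem cf_mul {lam : ℝ} (hl : 0 < lam) {m m' k : ℕ} (hm : 1 ≤ m) (hm' : 1 ≤ m') (hk : 1 ≤ k) :
    cf lam (k * (m / m.gcd m')) m * cf lam (k * (m' / m.gcd m')) m' =
      ((m.gcd m' : ℝ) / (m * m')) *
        (1 / (k : ℝ) / (1 + lam * |Real.log k - Real.log (m.gcd m' : ℕ)|) ^ 2) := by
  have hg : 0 < m.gcd m' := Nat.gcd_pos_of_pos_left _ hm
  obtain ⟨a, ha⟩ := Nat.gcd_dvd_left m m'
  obtain ⟨a', ha'⟩ := Nat.gcd_dvd_right m m'
  set g := m.gcd m' with hgd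
  have h1 : m / g = a := by
    conv_lhs => rw [ha]
    exact Nat.mul_div_cancel_left a hg
  have h2 : m' / g = a' := by
    conv_lhs => rw [ha']
    exact Nat.mul_div_cancel_left a' hg
  have ha0 : 0 < a := by
    rcases Nat.eq_zero_or_pos a with h5 | h5
    · rw [h5, mul_zero] at ha
      omega
    · exact h5
  have ha0' : 0 < a' := by
    rcases Nat.eq_zero_or_pos a' with h5 | h5
    · rw [h5, mul_zero] at ha'
      omega
    · exact h5
  have hgR : (0 : ℝ) < g := by exact_mod_cast hg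
  have haR : (0 : ℝ) < a := by exact_mod_cast ha0
  have haR' : (0 : ℝ) < a' := by exact_mod_cast ha0'
  have hkR : (0 : ℝ) < k := by exact_mod_cast hk
  have hmR : (m : ℝ) = g * a := by rw [ha]; push_cast; ring
  have hmR' : (m' : ℝ) = g * a' := by rw [ha']; push_cast; ring
  rw [h1, h2]
  unfold cf
  have e1 : Real.log ((k * a : ℕ) : ℝ) - Real.log m = Real.log k - Real.log g := by
    rw [hmR]
    push_cast
    rw [Real.log_mul hkR.ne' haR.ne', Real.log_mul hgR.ne' haR.ne']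
    ring
  have e2 : Real.log ((k * a' : ℕ) : ℝ) - Real.log m' = Real.log k - Real.log g := by
    rw [hmR']
    push_cast
    rw [Real.log_mul hkR.ne' haR'.ne', Real.log_mul hgR.ne' haR'.ne']
    ring
  rw [e1, e2]
  have e3 : Real.sqrt (((k * a : ℕ) : ℝ) * m) * Real.sqrt (((k * a' : ℕ) : ℝ) * m') =
      k * a * a' * g := by
    rw [← Real.sqrt_mul (by positivity), hmR, hmR']
    push_cast
    rw [show (k : ℝ) * a * (g * a) * (k * a' * (g * a')) = (k * a * a' * g) ^ 2 by ring]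
    exact Real.sqrt_sq (by positivity)
  have hD : (0 : ℝ) < 1 + lam * |Real.log k - Real.log (g : ℝ)| := by positivity
  have hs1 : 0 < Real.sqrt (((k * a : ℕ) : ℝ) * m) := by
    apply Real.sqrt_pos.2
    rw [hmR]
    push_cast
    positivity
  have hs2 : 0 < Real.sqrt (((k * a' : ℕ) : ℝ) * m') := by
    apply Real.sqrt_pos.2
    rw [hmR']
    push_cast
    positivity
  calc 1 / Real.sqrt (((k * a : ℕ) : ℝ) * m) / (1 + lam * |Real.log k - Real.log (g : ℝ)|) *
      (1 / Real.sqrt (((k * a' : ℕ) : ℝ) * m') / (1 + lam * |Real.log k - Real.log (g : ℝ)|))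
      = 1 / (Real.sqrt (((k * a : ℕ) : ℝ) * m) * Real.sqrt (((k * a' : ℕ) : ℝ) * m')) /
        (1 + lam * |Real.log k - Real.log (g : ℝ)|) ^ 2 := by
        field_simp
    _ = _ := by
        rw [e3, hmR, hmR']
        field_simp

/-- For one pair `m`, `m'`. -/
theorem one_pair {lam : ℝ} (hl : 0 < lam) {m m' : ℕ} (hm : 1 ≤ m) (hm' : 1 ≤ m')
    (N : Finset ℕ) (hN : ∀ n ∈ N, 1 ≤ n) :
    ∑ p ∈ (N ×ˢ N).filter (fun p => p.1 * m' = p.2 * m ∧ p.1 ≠ m),
      cf lam p.1 m * cf lam p.2 m' ≤ ((m.gcd m' : ℝ) / (m * m')) * (3 / lam) := by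
  classical
  have hg : 0 < m.gcd m' := Nat.gcd_pos_of_pos_left _ hm
  set P := (N ×ˢ N).filter (fun p => p.1 * m' = p.2 * m ∧ p.1 ≠ m) with hP
  have hex : ∀ p ∈ P, ∃ k : ℕ, p.1 = k * (m / m.gcd m') ∧ p.2 = k * (m' / m.gcd m') := by
    intro p hp
    rw [hP, Finset.mem_filter] at hp
    exact pairs hm hp.2.1
  have hdiv : 0 < m / m.gcd m' := Nat.div_pos (Nat.gcd_le_left _ hm) hg
  set κ : ℕ × ℕ → ℕ := fun p => p.1 / (m / m.gcd m') with hκ
  have hk : ∀ p ∈ P, p.1 = κ p * (m / m.gcd m') ∧ p.2 = κ p * (m' / m.gcd m') := by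
    intro p hp
    obtain ⟨k, h1, h2⟩ := hex p hp
    have h3 : κ p = k := by
      show p.1 / (m / m.gcd m') = k
      rw [h1]
      exact Nat.mul_div_cancel k hdiv
    rw [h3]
    exact ⟨h1, h2⟩
  have hinj : Set.InjOn κ P := by
    intro p hp q hq hpq
    obtain ⟨h1, h2⟩ := hk p hp
    obtain ⟨h3, h4⟩ := hk q hq
    refine Prod.ext ?_ ?_
    · rw [h1, h3, hpq]
    · rw [h2, h4, hpq]
  have hk1 : ∀ p ∈ P, 1 ≤ κ p ∧ κ p ≠ m.gcd m' := by
    intro p hp
    obtain ⟨h1, h2⟩ := hk p hp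
    rw [hP, Finset.mem_filter, Finset.mem_product] at hp
    have h3 := hN _ hp.1.1
    constructor
    · rcases Nat.eq_zero_or_pos (κ p) with h4 | h4
      · rw [h4, zero_mul] at h1
        omega
      · exact h4
    · intro h4
      rw [h4, Nat.mul_div_cancel' (Nat.gcd_dvd_left m m')] at h1
      exact hp.2.2 h1
  have hsum : ∑ p ∈ P, cf lam p.1 m * cf lam p.2 m' =
      ((m.gcd m' : ℝ) / (m * m')) * ∑ k ∈ P.image κ,
        1 / (k : ℝ) / (1 + lam * |Real.log k - Real.log (m.gcd m' : ℕ)|) ^ 2 := by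
    rw [Finset.mul_sum, Finset.sum_image hinj]
    refine Finset.sum_congr rfl fun p hp => ?_
    have h1 := hk p hp
    have h2 := cf_mul hl hm hm' (hk1 p hp).1
    rw [← h1.1, ← h1.2] at h2
    exact h2
  rw [hsum]
  refine mul_le_mul_of_nonneg_left ?_ (by positivity)
  refine sg hl hg _ fun k hk' => ?_
  obtain ⟨p, hp, rfl⟩ := Finset.mem_image.1 hk'
  exact hk1 p hp

/-- **DIAG.** The diagonal of the mean square of `∑ b_j (n m_j)^(-1/2) (n/m_j)^(it) φ(log(n/m_j))`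
over the pairs `(n, j)` with `n ≠ m_j`. -/
theorem diag {J : Type*} {lam A : ℝ} (hl : 0 < lam) (Js : Finset J) (m : J → ℕ)
    (b : J → ℝ) (hm : ∀ j ∈ Js, 1 ≤ m j) (hb : ∀ j ∈ Js, 0 ≤ b j) (S : Finset (ℕ × J))
    (hS : ∀ p ∈ S, p.2 ∈ Js ∧ 1 ≤ p.1 ∧ p.1 ≠ m p.2) (c : ℕ × J → ℝ) (hc0 : ∀ p ∈ S, 0 ≤ c p)
    (hc : ∀ p ∈ S, c p ≤ A * b p.2 * cf lam p.1 (m p.2)) :
    ∑ p ∈ S, ∑ p' ∈ S, (if p.1 * m p'.2 = p'.1 * m p.2 then c p * c p' else 0) ≤
      3 * A ^ 2 / lam * ∑ j ∈ Js, ∑ j' ∈ Js,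
        b j * b j' * (((m j).gcd (m j') : ℝ) / (m j * m j')) := by
  classical
  set N : Finset ℕ := S.image Prod.fst with hN
  have hN1 : ∀ n ∈ N, 1 ≤ n := by
    intro n hn
    obtain ⟨p, hp, rfl⟩ := Finset.mem_image.1 hn
    exact (hS p hp).2.1
  have h0 : ∀ (n n' : ℕ) (j j' : J), j ∈ Js → j' ∈ Js →
      0 ≤ A ^ 2 * (b j * b j') * (cf lam n (m j) * cf lam n' (m j')) := by
    intro n n' j j' hj hj'
    have h1 := hb j hj
    have h2 := hb j' hj'
    have h3 := cf_nonneg hl n (m j)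
    have h4 := cf_nonneg hl n' (m j')
    positivity
  have step1 : ∑ p ∈ S, ∑ p' ∈ S, (if p.1 * m p'.2 = p'.1 * m p.2 then c p * c p' else 0) ≤
      ∑ p ∈ S, ∑ p' ∈ S, (if p.1 * m p'.2 = p'.1 * m p.2 ∧ p.1 ≠ m p.2 then
        A ^ 2 * (b p.2 * b p'.2) * (cf lam p.1 (m p.2) * cf lam p'.1 (m p'.2)) else 0) := by
    refine Finset.sum_le_sum fun p hp => Finset.sum_le_sum fun p' hp' => ?_
    by_cases h : p.1 * m p'.2 = p'.1 * m p.2
    · rw [if_pos h, if_pos ⟨h, (hS p hp).2.2⟩]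
      have h1 := hc p hp
      have h2 := hc p' hp'
      have h3 := hc0 p hp
      have h4 := hc0 p' hp'
      calc c p * c p' ≤ (A * b p.2 * cf lam p.1 (m p.2)) * (A * b p'.2 * cf lam p'.1 (m p'.2)) :=
            mul_le_mul h1 h2 h4 (h3.trans h1)
        _ = _ := by ring
    · rw [if_neg h]
      split_ifs
      · exact h0 _ _ _ _ (hS p hp).1 (hS p' hp').1
      · exact le_rfl
  have hsub : S ⊆ N ×ˢ Js := by
    intro p hp
    rw [Finset.mem_product]
    exact ⟨Finset.mem_image_of_mem _ hp, (hS p hp).1⟩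
  have hpos : ∀ p ∈ N ×ˢ Js, ∀ p' ∈ N ×ˢ Js,
      0 ≤ (if p.1 * m p'.2 = p'.1 * m p.2 ∧ p.1 ≠ m p.2 then
        A ^ 2 * (b p.2 * b p'.2) * (cf lam p.1 (m p.2) * cf lam p'.1 (m p'.2)) else 0) := by
    intro p hp p' hp'
    rw [Finset.mem_product] at hp hp'
    split_ifs
    · exact h0 _ _ _ _ hp.2 hp'.2
    · exact le_rfl
  have step2 : ∑ p ∈ S, ∑ p' ∈ S, (if p.1 * m p'.2 = p'.1 * m p.2 ∧ p.1 ≠ m p.2 then
        A ^ 2 * (b p.2 * b p'.2) * (cf lam p.1 (m p.2) * cf lam p'.1 (m p'.2)) else 0) ≤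
      ∑ p ∈ N ×ˢ Js, ∑ p' ∈ N ×ˢ Js, (if p.1 * m p'.2 = p'.1 * m p.2 ∧ p.1 ≠ m p.2 then
        A ^ 2 * (b p.2 * b p'.2) * (cf lam p.1 (m p.2) * cf lam p'.1 (m p'.2)) else 0) := by
    refine (Finset.sum_le_sum fun p hp => ?_).trans
      (Finset.sum_le_sum_of_subset_of_nonneg hsub fun p hp _ =>
        Finset.sum_nonneg fun p' hp' => hpos p hp p' hp')
    exact Finset.sum_le_sum_of_subset_of_nonneg hsub fun p' hp' _ => hpos p (hsub hp) p' hp'
  refine step1.trans (step2.trans ?_)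
  have step3 : ∑ p ∈ N ×ˢ Js, ∑ p' ∈ N ×ˢ Js, (if p.1 * m p'.2 = p'.1 * m p.2 ∧ p.1 ≠ m p.2 then
        A ^ 2 * (b p.2 * b p'.2) * (cf lam p.1 (m p.2) * cf lam p'.1 (m p'.2)) else 0) =
      ∑ j ∈ Js, ∑ j' ∈ Js, A ^ 2 * (b j * b j') *
        ∑ p ∈ (N ×ˢ N).filter (fun p => p.1 * m j' = p.2 * m j ∧ p.1 ≠ m j),
          cf lam p.1 (m j) * cf lam p.2 (m j') := by
    rw [Finset.sum_product_right]
    refine Finset.sum_congr rfl fun j _ => ?_
    have h1 : ∀ n ∈ N, ∑ p' ∈ N ×ˢ Js, (if (n, j).1 * m p'.2 = p'.1 * m (n, j).2 ∧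
        (n, j).1 ≠ m (n, j).2 then A ^ 2 * (b (n, j).2 * b p'.2) *
        (cf lam (n, j).1 (m (n, j).2) * cf lam p'.1 (m p'.2)) else 0) =
        ∑ j' ∈ Js, ∑ n' ∈ N, (if n * m j' = n' * m j ∧ n ≠ m j then
          A ^ 2 * (b j * b j') * (cf lam n (m j) * cf lam n' (m j')) else 0) := by
      intro n _
      rw [Finset.sum_product_right]
    rw [Finset.sum_congr rfl h1, Finset.sum_comm]
    refine Finset.sum_congr rfl fun j' _ => ?_
    rw [Finset.mul_sum, Finset.sum_filter, Finset.sum_product]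
  rw [step3, Finset.mul_sum]
  refine Finset.sum_le_sum fun j hj => ?_
  rw [Finset.mul_sum]
  refine Finset.sum_le_sum fun j' hj' => ?_
  have h1 := one_pair hl (hm j hj) (hm j' hj') N hN1
  have h2 : 0 ≤ A ^ 2 * (b j * b j') := by
    have := hb j hj
    have := hb j' hj'
    positivity
  calc A ^ 2 * (b j * b j') * _ ≤ A ^ 2 * (b j * b j') *
        ((((m j).gcd (m j') : ℕ) : ℝ) / (m j * m j') * (3 / lam)) :=
        mul_le_mul_of_nonneg_left h1 h2
    _ = _ := by ring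

/-! ### GCD -/

theorem gcd_prod {κ : Type*} (s : Finset κ) (p p' : κ → ℕ)
    (h : ∀ i ∈ s, ∀ j ∈ s, i ≠ j → Nat.Coprime (p i) (p' j))
    (h' : ∀ i ∈ s, ∀ j ∈ s, i ≠ j → Nat.Coprime (p' i) (p' j)) :
    Nat.gcd (∏ k ∈ s, p k) (∏ k ∈ s, p' k) = ∏ k ∈ s, Nat.gcd (p k) (p' k) := by
  classical
  induction s using Finset.induction_on with
  | empty => simp
  | insert a s ha ih =>
    have ih' := ih (fun i hi j hj => h i (Finset.mem_insert_of_mem hi) j
      (Finset.mem_insert_of_mem hj)) (fun i hi j hj => h' i (Finset.mem_insert_of_mem hi) j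
      (Finset.mem_insert_of_mem hj))
    rw [Finset.prod_insert ha, Finset.prod_insert ha, Finset.prod_insert ha]
    have h1 : Nat.Coprime (p a) (∏ k ∈ s, p' k) := by
      refine Nat.Coprime.prod_right fun j hj => h a (Finset.mem_insert_self _ _) j
        (Finset.mem_insert_of_mem hj) ?_
      rintro rfl
      exact ha hj
    have h2 : Nat.Coprime (∏ k ∈ s, p k) (p' a) := by
      refine Nat.Coprime.prod_left fun j hj => h j (Finset.mem_insert_of_mem hj) a
        (Finset.mem_insert_self _ _) ?_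
      rintro rfl
      exact ha hj
    have h3 : Nat.Coprime (p' a) (∏ k ∈ s, p' k) := by
      refine Nat.Coprime.prod_right fun j hj => h' a (Finset.mem_insert_self _ _) j
        (Finset.mem_insert_of_mem hj) ?_
      rintro rfl
      exact ha hj
    rw [Nat.Coprime.gcd_mul _ h3, Nat.Coprime.gcd_mul_right_cancel _ h2,
      Nat.Coprime.gcd_mul_left_cancel _ h1, ih']

/-- One block of primes. -/
theorem one_block (D : Finset ℕ) (hp : ∀ q ∈ D, q.Prime) :
    ∑ q ∈ D, ∑ q' ∈ D, ((q.gcd q' : ℕ) : ℝ) / (q * q') ≤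
      (∑ q ∈ D, 1 / (q : ℝ)) ^ 2 + ∑ q ∈ D, 1 / (q : ℝ) := by
  classical
  rw [sq, Finset.sum_mul_sum, ← Finset.sum_add_distrib]
  refine Finset.sum_le_sum fun q hq => ?_
  have hq0 : (0 : ℝ) < q := by exact_mod_cast (hp q hq).pos
  have h1 : ∀ q' ∈ D, ((q.gcd q' : ℕ) : ℝ) / (q * q') ≤
      1 / (q : ℝ) * (1 / (q' : ℝ)) + (if q' = q then 1 / (q : ℝ) else 0) := by
    intro q' hq'
    have hq0' : (0 : ℝ) < q' := by exact_mod_cast (hp q' hq').pos
    by_cases h : q' = q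
    · subst h
      rw [if_pos rfl, Nat.gcd_self]
      have : (q' : ℝ) / (q' * q') = 1 / q' := by field_simp
      rw [this]
      have h2 : 0 ≤ 1 / (q' : ℝ) * (1 / (q' : ℝ)) := by positivity
      linarith
    · rw [if_neg h, add_zero, (Nat.coprime_primes (hp q hq) (hp q' hq')).2 (Ne.symm h)]
      rw [Nat.cast_one]
      apply le_of_eq
      field_simp
  refine (Finset.sum_le_sum h1).trans (le_of_eq ?_)
  rw [Finset.sum_add_distrib, Finset.sum_ite_eq' D q, if_pos hq]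

end Pool.Agent.Lib.MP_6bc78b_nt.GP.H90
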