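import Pool.Agent.Lib.MP_6bc78b_nt.GP.H90.MainB2

/-! Project GP11 (MP_6bc78b_nt), helper90: row MAINB2 for polynomials of any length `exp (v5 T)`
with `v5 T ≤ v6 T / 2` and `exp (6 v6 T) = o(T)`. -/

set_option autoImplicit false

open Complex Filter Topology MeasureTheory ArithmeticFunction Set
open scoped ENNReal

namespace Pool.Agent.Lib.MP_6bc78b_nt.GP.H90

open Pool.Agent.Lib.MP_6bc78b_nt.GP.G10

/-- the tail of `DWo` -/
theorem Fo_tail_g {x u₅ u₆ lam H : ℝ} (hx : 10 ≤ x) (h50 : 0 ≤ u₅) (h56 : 2 * u₅ ≤ u₆)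
    (h6x : 8000 * x ≤ u₆) (hlam : 1 ≤ lam) (hH : H = lam / (10 * Real.sqrt x))
    {a : ℕ → ℝ} (ha : ∀ n : ℕ, |a n| ≤ (1 + Real.log n) ^ 2) {S : Finset ℕ} {β : ℕ → ℝ}
    (hM : Mol S β (Real.exp (u₅)) 1) (t : ℝ) {n : ℕ} (hn : u₆ < Real.log n) :
    ‖Fo a lam H S β t n‖ ≤ Real.exp (-x) * (1 / (n : ℝ) ^ 2) := by
  have hx0 : 0 < x := by linarith
  have hlog : 0 < Real.log n := lt_of_le_of_lt (by linarith) hn
  have hn0 : n ≠ 0 := by
    rintro rfl
    simp at hlog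
  have hnR : (0 : ℝ) < n := by exact_mod_cast Nat.pos_of_ne_zero hn0
  have hn1 : (1 : ℝ) ≤ n := by exact_mod_cast Nat.one_le_iff_ne_zero.2 hn0
  unfold Fo
  rw [if_neg hn0]
  have hH2 : H ^ 2 = lam ^ 2 / (100 * x) := by
    rw [hH, div_pow, mul_pow, Real.sq_sqrt hx0.le]
    norm_num
  -- one term
  have hterm : ∀ m ∈ S, ‖(if n = m then (0 : ℂ) else
      ((a n * β m / Real.sqrt (n * m) * wd lam H (Real.log (n / m)) : ℝ) : ℂ) *
      Complex.exp (t * Real.log (n / m) * I))‖ ≤ β m * ((n : ℝ) ^ 2 * ((n : ℝ) ^ 10)⁻¹) := by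
    intro m hm
    have hm1 := hM.one_le m hm
    have hmR : (0 : ℝ) < m := by exact_mod_cast hm1
    have hmR1 : (1 : ℝ) ≤ m := by exact_mod_cast hm1
    have hb := hM.nonneg m
    split_ifs with hnm
    · rw [norm_zero]
      positivity
    have e1 : ‖Complex.exp (t * Real.log (n / m) * I)‖ = 1 := by
      have : (t : ℂ) * Real.log (n / m) * I = ((t * Real.log (n / m) : ℝ) : ℂ) * I := by
        push_cast
        ring
      rw [this]
      exact Complex.norm_exp_ofReal_mul_I _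
    rw [norm_mul, e1, mul_one, Complex.norm_real, Real.norm_eq_abs, abs_mul, abs_div, abs_mul,
      abs_of_nonneg hb, abs_of_nonneg (Real.sqrt_nonneg _), abs_of_nonneg (wd_nonneg _ _ _)]
    have hlogn : 1 + Real.log n ≤ n := by
      have := Real.log_le_sub_one_of_pos hnR
      linarith
    have ha' : |a n| ≤ (n : ℝ) ^ 2 :=
      (ha n).trans (pow_le_pow_left₀ (by linarith) hlogn 2)
    have hsq : (1 : ℝ) ≤ Real.sqrt (n * m) := by
      rw [show (1 : ℝ) = Real.sqrt 1 by simp]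
      exact Real.sqrt_le_sqrt (by nlinarith)
    have hw : wd lam H (Real.log (n / m)) ≤ ((n : ℝ) ^ 10)⁻¹ := by
      refine (wd_le_exp _ _ _).trans ?_
      have hlm : Real.log m ≤ u₅ := by
        have h1 := hM.le m hm
        calc Real.log m ≤ Real.log (Real.exp (u₅)) := Real.log_le_log hmR h1
          _ = u₅ := Real.log_exp _
      have hu : Real.log n / 2 ≤ Real.log (n / m) := by
        rw [Real.log_div hnR.ne' hmR.ne']
        linarith
      have hu2 : (Real.log n / 2) ^ 2 ≤ Real.log (n / m) ^ 2 :=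
        pow_le_pow_left₀ (by positivity) hu 2
      have h10 : ((n : ℝ) ^ 10)⁻¹ = Real.exp (-(10 * Real.log n)) := by
        rw [Real.exp_neg, mul_comm, Real.exp_mul, Real.exp_log hnR]
        norm_cast
      rw [h10, Real.exp_le_exp, neg_le_neg_iff, hH2]
      have hl2 : 1 ≤ lam ^ 2 := one_le_pow₀ hlam
      have h3 : 10 * Real.log n ≤ 1 / (100 * x) * (Real.log n / 2) ^ 2 / 2 := by
        have h4 : 1 / (100 * x) * (Real.log n / 2) ^ 2 / 2 =
            Real.log n * (Real.log n / (800 * x)) := by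
          field_simp
          ring
        rw [h4]
        have h5 : 10 ≤ Real.log n / (800 * x) := by
          rw [le_div_iff₀ (by positivity)]
          linarith
        nlinarith
      refine h3.trans ?_
      refine div_le_div_of_nonneg_right ?_ (by norm_num)
      refine mul_le_mul ?_ hu2 (by positivity) (by positivity)
      exact div_le_div_of_nonneg_right hl2 (by positivity)
    have h6 : |a n| * β m / Real.sqrt (n * m) ≤ (n : ℝ) ^ 2 * β m := by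
      rw [div_le_iff₀ (by linarith)]
      have h7 : |a n| * β m ≤ (n : ℝ) ^ 2 * β m := mul_le_mul_of_nonneg_right ha' hb
      have h8 : 0 ≤ (n : ℝ) ^ 2 * β m := by positivity
      nlinarith
    calc |a n| * β m / Real.sqrt (n * m) * wd lam H (Real.log (n / m)) ≤
        ((n : ℝ) ^ 2 * β m) * ((n : ℝ) ^ 10)⁻¹ :=
          mul_le_mul h6 hw (wd_nonneg _ _ _) (by positivity)
      _ = _ := by ring
  refine (norm_sum_le _ _).trans ((Finset.sum_le_sum hterm).trans ?_)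
  rw [← Finset.sum_mul]
  have hS := sum_beta_le hM
  have hkey : (n : ℝ) ^ 2 * ((n : ℝ) ^ 10)⁻¹ ≤ Real.exp (-(6 * u₆)) * (1 / (n : ℝ) ^ 2) := by
    have h1 : ((n : ℝ) ^ 6)⁻¹ ≤ Real.exp (-(6 * u₆)) := by
      have h2 : ((n : ℝ) ^ 6)⁻¹ = Real.exp (-(6 * Real.log n)) := by
        rw [Real.exp_neg, mul_comm, Real.exp_mul, Real.exp_log hnR]
        norm_cast
      rw [h2, Real.exp_le_exp]
      linarith
    calc (n : ℝ) ^ 2 * ((n : ℝ) ^ 10)⁻¹ = ((n : ℝ) ^ 6)⁻¹ * (1 / (n : ℝ) ^ 2) := by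
          field_simp
      _ ≤ _ := mul_le_mul_of_nonneg_right h1 (by positivity)
  calc (∑ m ∈ S, β m) * ((n : ℝ) ^ 2 * ((n : ℝ) ^ 10)⁻¹) ≤
      Real.exp (u₅) * (Real.exp (-(6 * u₆)) * (1 / (n : ℝ) ^ 2)) :=
        mul_le_mul hS hkey (by positivity) (Real.exp_pos _).le
    _ = Real.exp (u₅ + -(6 * u₆)) * (1 / (n : ℝ) ^ 2) := by
        rw [Real.exp_add]
        ring
    _ ≤ Real.exp (-x) * (1 / (n : ℝ) ^ 2) := by
        refine mul_le_mul_of_nonneg_right ?_ (by positivity)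
        rw [Real.exp_le_exp]
        linarith

/-- growth conditions -/
theorem ev_conditions_g {v5 v6 : ℝ → ℝ}
    (hv : ∀ᶠ T : ℝ in atTop, 0 ≤ v5 T ∧ 2 * v5 T ≤ v6 T ∧ 8000 * Real.log (Real.log T) ≤ v6 T)
    (hv6 : ∀ K : ℝ, 0 < K → ∀ᶠ T : ℝ in atTop, K * Real.exp (6 * v6 T) ≤ T)
    (K ε : ℝ) (hε : 0 < ε) : ∀ᶠ T : ℝ in atTop,
    10 ≤ Real.log (Real.log T) ∧ (0 ≤ v5 T ∧ 2 * v5 T ≤ v6 T ∧
    8000 * Real.log (Real.log T) ≤ v6 T) ∧
    1156 * Real.exp (6 * v6 T) ≤ ε / 2 * T ∧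
    2 * (K * Real.exp (-Real.log (Real.log T))) ^ 2 ≤ ε / 2 := by
  have hll : Tendsto (fun T : ℝ => Real.log (Real.log T)) atTop atTop :=
    Real.tendsto_log_atTop.comp Real.tendsto_log_atTop
  have h3 : Tendsto (fun x : ℝ => 2 * (K * Real.exp (-x)) ^ 2) atTop (𝓝 (2 * (K * 0) ^ 2)) :=
    ((Real.tendsto_exp_neg_atTop_nhds_zero.const_mul K).pow 2).const_mul 2
  have h4 : ∀ᶠ x : ℝ in atTop, 2 * (K * Real.exp (-x)) ^ 2 ≤ ε / 2 := by
    refine h3.eventually_le_const ?_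
    rw [mul_zero]
    norm_num
    exact hε
  filter_upwards [hv, hv6 (2312 / ε) (by positivity), hll.eventually h4,
    hll.eventually_ge_atTop 10] with T e1 e2 e4 e5
  refine ⟨e5, e1, ?_, e4⟩
  have h12 : ε / 2 * (2312 / ε * Real.exp (6 * v6 T)) ≤ ε / 2 * T :=
    mul_le_mul_of_nonneg_left e2 (by positivity)
  calc 1156 * Real.exp (6 * v6 T) = ε / 2 * (2312 / ε * Real.exp (6 * v6 T)) := by
        field_simp
        norm_num
    _ ≤ _ := h12

/-- the head of `DWo` -/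
theorem Fo_head_g {u₅ u₆ lam H T : ℝ} (h50 : 0 ≤ u₅) (h56 : 2 * u₅ ≤ u₆) (hlam : 1 ≤ lam)
    (hT : 0 ≤ T)
    {a : ℕ → ℝ} (ha : ∀ n : ℕ, Real.log n ≤ u₆ → |a n| ≤ 1) {S : Finset ℕ} {β : ℕ → ℝ}
    (hM : Mol S β (Real.exp (u₅)) 1) {X : ℕ} (hX : X = ⌊Real.exp (u₆)⌋₊) :
    ∫ t in T..(2 * T), ‖∑ n ∈ Finset.range (X + 1), Fo a lam H S β t n‖ ^ 2 ≤
      (17 : ℝ) ^ 2 * (T * (3 / lam * 2) + 2 * (X : ℝ) ^ 2 * (X * ∑ m ∈ S, β m) ^ 2) := by
  have hl : 0 < lam := by linarith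
  have hx56 : u₅ ≤ u₆ := by linarith
  have hXle : (X : ℝ) ≤ Real.exp (u₆) := by
    rw [hX]
    exact Nat.floor_le (Real.exp_pos _).le
  have hS : ∀ m ∈ S, 1 ≤ m ∧ m ≤ X := by
    intro m hm
    refine ⟨hM.one_le m hm, ?_⟩
    rw [hX]
    exact Nat.le_floor ((hM.le m hm).trans (Real.exp_le_exp.2 hx56))
  have hlcm : ∑ m ∈ S, ∑ m' ∈ S, β m * β m' / (Nat.lcm m m' : ℝ) ≤ 2 := by
    have := hM.sum_lcm
    linarith
  have ha' : ∀ n ∈ Finset.Icc 1 X, ‖(((17 * a n : ℝ)) : ℂ)‖ ≤ 17 := by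
    intro n hn
    obtain ⟨h1, h2⟩ := Finset.mem_Icc.1 hn
    have hnR : (0 : ℝ) < n := by exact_mod_cast h1
    have h3 : Real.log n ≤ u₆ := by
      have h4 : (n : ℝ) ≤ Real.exp (u₆) := le_trans (by exact_mod_cast h2) hXle
      calc Real.log n ≤ Real.log (Real.exp (u₆)) := Real.log_le_log hnR h4
        _ = u₆ := Real.log_exp _
    have h5 := ha n h3
    rw [Complex.norm_real, Real.norm_eq_abs, abs_mul, abs_of_pos (by norm_num : (0 : ℝ) < 17)]
    linarith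
  have hf : ∀ u : ℝ, ‖(((wd lam H (-u) / 17 : ℝ)) : ℂ)‖ ^ 2 ≤ ((1 + lam * |u|) ^ 2)⁻¹ := by
    intro u
    have hd : 0 < 1 + lam * |u| := by positivity
    have h1 := wd_le hl H (-u)
    rw [abs_neg] at h1
    have h0 := wd_nonneg lam H (-u)
    rw [Complex.norm_real, Real.norm_of_nonneg (by positivity), ← inv_pow]
    refine pow_le_pow_left₀ (by positivity) ?_ 2
    rw [div_le_iff₀ (by norm_num : (0 : ℝ) < 17)]
    calc wd lam H (-u) ≤ 17 / (1 + lam * |u|) := h1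
      _ = (1 + lam * |u|)⁻¹ * 17 := by ring
  have hmain := mainb2 S β (fun m _ => hM.nonneg m) X hS hlcm (Finset.Icc 1 X)
    (fun n hn => Finset.mem_Icc.1 hn) (fun n => (((17 * a n : ℝ)) : ℂ)) (by norm_num : (0 : ℝ) ≤ 17)
    ha' (fun u => (((wd lam H (-u) / 17 : ℝ)) : ℂ)) hl hf hT
  refine le_trans (le_of_eq ?_) hmain
  congr 1
  funext t
  congr 2
  have h1 : ∑ n ∈ Finset.Icc 1 X, Fo a lam H S β t n =
      ∑ n ∈ Finset.range (X + 1), Fo a lam H S β t n := by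
    refine Finset.sum_subset ?_ ?_
    · intro n hn
      have := (Finset.mem_Icc.1 hn).2
      exact Finset.mem_range.2 (by omega)
    · intro n hn hn'
      have h2 := Finset.mem_range.1 hn
      have h3 : n = 0 := by
        by_contra h4
        exact hn' (Finset.mem_Icc.2 ⟨by omega, by omega⟩)
      unfold Fo
      rw [if_pos h3]
  rw [← h1]
  refine Finset.sum_congr rfl fun n hn => ?_
  obtain ⟨hn1, hn2⟩ := Finset.mem_Icc.1 hn
  unfold Fo
  rw [if_neg (by omega)]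
  refine Finset.sum_congr rfl fun m hm => ?_
  by_cases hnm : n = m
  · rw [if_pos hnm, if_pos hnm]
  · rw [if_neg hnm, if_neg hnm]
    have hnR : (n : ℝ) ≠ 0 := by exact_mod_cast (by omega : n ≠ 0)
    have hmR : (m : ℝ) ≠ 0 := by exact_mod_cast (by have := hM.one_le m hm; omega : m ≠ 0)
    have h2 : -Real.log ((m : ℝ) / n) = Real.log ((n : ℝ) / m) := by
      rw [← Real.log_inv, inv_div]
    have h3 : ((Real.log ((n : ℝ) / m) * t : ℝ) : ℂ) * I = t * Real.log ((n : ℝ) / m) * I := by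
      push_cast
      ring
    rw [h3]
    show _ = (((17 * a n : ℝ)) : ℂ) * ((β m / √((n : ℝ) * m) : ℝ) : ℂ) *
      (((wd lam H (-Real.log ((m : ℝ) / n)) / 17 : ℝ)) : ℂ) *
        Complex.exp (t * Real.log ((n : ℝ) / m) * I)
    rw [h2]
    congr 1
    rw [← Complex.ofReal_mul, ← Complex.ofReal_mul]
    congr 1
    ring

/-- **MAINB2**, general length. -/
theorem mainb2_gen {v5 v6 : ℝ → ℝ}
    (hv : ∀ᶠ T : ℝ in atTop, 0 ≤ v5 T ∧ 2 * v5 T ≤ v6 T ∧ 8000 * Real.log (Real.log T) ≤ v6 T)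
    (hv6 : ∀ K : ℝ, 0 < K → ∀ᶠ T : ℝ in atTop, K * Real.exp (6 * v6 T) ≤ T) :
    ∃ C : ℝ, 0 < C ∧ ∀ lam ε : ℝ, 1 ≤ lam → 0 < ε →
    ∃ T0 : ℝ, 10 < T0 ∧ ∀ (T : ℝ) (a : ℕ → ℝ) (S : Finset ℕ) (β : ℕ → ℝ), T0 ≤ T →
    (∀ n : ℕ, Real.log n ≤ v6 T → |a n| ≤ 1) →
    (∀ n : ℕ, |a n| ≤ (1 + Real.log n) ^ 2) →
    Mol S β (Real.exp (v5 T)) 1 →
    ∫⁻ t in Icc T (2 * T), ENNReal.ofReal (‖DWo a lam (HH T lam) S β t‖ ^ 2) ≤
      ENNReal.ofReal ((C / lam + ε) * T) := by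
  refine ⟨3468, by norm_num, ?_⟩
  intro lam ε hlam hε
  obtain ⟨K, hK⟩ : ∃ K : ℝ, K = ∑' k : ℕ, 1 / ((k : ℝ) + 1) ^ 2 := ⟨_, rfl⟩
  obtain ⟨T1, hT1⟩ := eventually_atTop.1 (ev_conditions_g hv hv6 K ε hε)
  refine ⟨max T1 11, lt_max_of_lt_right (by norm_num), ?_⟩
  intro T a S β hT ha1 ha2 hM
  obtain ⟨hx, ⟨h50, h56, h6x⟩, hE2, hE3⟩ := hT1 T (le_trans (le_max_left _ _) hT)
  have hT0 : 0 < T := by
    have := le_trans (le_max_right T1 11) hT
    linarith
  obtain ⟨x, hxd⟩ : ∃ x : ℝ, x = Real.log (Real.log T) := ⟨_, rfl⟩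
  rw [← hxd] at hx hE3 h6x
  generalize v5 T = u₅ at *
  generalize v6 T = u₆ at *
  obtain ⟨H, hHd⟩ : ∃ H : ℝ, H = HH T lam := ⟨_, rfl⟩
  rw [← hHd]
  have hHH : H = lam / (10 * Real.sqrt x) := by
    rw [hHd, hxd]
    rfl
  have hl : 0 < lam := by linarith
  obtain ⟨X, hX⟩ : ∃ X : ℕ, X = ⌊Real.exp (u₆)⌋₊ := ⟨_, rfl⟩
  have hsumm1 : Summable (fun k : ℕ => 1 / ((k : ℝ) + 1) ^ 2) := by
    have h1 : Summable (fun k : ℕ => 1 / ((k : ℝ)) ^ 2) :=
      Real.summable_one_div_nat_pow.2 one_lt_two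
    have h2 := (summable_nat_add_iff 1).2 h1
    refine h2.congr fun k => ?_
    push_cast
    rfl
  have hFb : ∀ (t : ℝ) (k : ℕ), ‖Fo a lam H S β t (k + (X + 1))‖ ≤
      Real.exp (-x) * (1 / ((k : ℝ) + 1) ^ 2) := by
    intro t k
    have hXk : Real.exp (u₆) < ((k + (X + 1) : ℕ) : ℝ) := by
      have h1 := Nat.lt_floor_add_one (Real.exp (u₆))
      rw [← hX] at h1
      have h2 : (0 : ℝ) ≤ k := Nat.cast_nonneg k
      push_cast
      linarith
    have hn : u₆ < Real.log ((k + (X + 1) : ℕ) : ℝ) := by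
      rw [Real.lt_log_iff_exp_lt (lt_trans (Real.exp_pos _) hXk)]
      exact hXk
    refine (Fo_tail_g hx h50 h56 h6x hlam hHH ha2 hM t hn).trans ?_
    refine mul_le_mul_of_nonneg_left ?_ (Real.exp_pos _).le
    have h3 : (0 : ℝ) < (k : ℝ) + 1 := by positivity
    refine one_div_le_one_div_of_le (by positivity) (pow_le_pow_left₀ h3.le ?_ 2)
    have h4 : (0 : ℝ) ≤ X := Nat.cast_nonneg X
    push_cast
    linarith
  have hsF : ∀ t : ℝ, Summable (Fo a lam H S β t) := fun t =>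
    (summable_nat_add_iff (X + 1)).1
      (Summable.of_norm_bounded (hsumm1.mul_left _) (hFb t))
  have hsplit : ∀ t : ℝ, DWo a lam H S β t = ∑ n ∈ Finset.range (X + 1), Fo a lam H S β t n +
      ∑' k : ℕ, Fo a lam H S β t (k + (X + 1)) := by
    intro t
    have h1 := Summable.sum_add_tsum_nat_add (X + 1) (hsF t)
    rw [h1]
    rfl
  have htail : ∀ t : ℝ, ‖∑' k : ℕ, Fo a lam H S β t (k + (X + 1))‖ ≤ K * Real.exp (-x) := by
    intro t
    have h1 : HasSum (fun k : ℕ => Real.exp (-x) * (1 / ((k : ℝ) + 1) ^ 2))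
        (Real.exp (-x) * K) := by
      rw [hK]
      exact hsumm1.hasSum.mul_left _
    have h2 := tsum_of_norm_bounded h1 (hFb t)
    rw [mul_comm K]
    exact h2
  have hhead := Fo_head_g h50 h56 hlam hT0.le ha1 hM hX (H := H)
  have hcont : Continuous (fun t => ∑ n ∈ Finset.range (X + 1), Fo a lam H S β t n) :=
    continuous_finset_sum _ fun n _ => Fo_cont a lam H S β n
  have hcont2 : Continuous (fun t =>
      2 * ‖∑ n ∈ Finset.range (X + 1), Fo a lam H S β t n‖ ^ 2 +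
        2 * (K * Real.exp (-x)) ^ 2) :=
    ((hcont.norm.pow 2).const_mul 2 |>.add continuous_const)
  have hpt : ∀ t : ℝ, ‖DWo a lam H S β t‖ ^ 2 ≤
      2 * ‖∑ n ∈ Finset.range (X + 1), Fo a lam H S β t n‖ ^ 2 +
        2 * (K * Real.exp (-x)) ^ 2 := by
    intro t
    rw [hsplit t]
    have h1 := norm_add_le (∑ n ∈ Finset.range (X + 1), Fo a lam H S β t n)
      (∑' k : ℕ, Fo a lam H S β t (k + (X + 1)))
    have h2 := htail t
    have h3 := norm_nonneg (∑ n ∈ Finset.range (X + 1), Fo a lam H S β t n)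
    have h4 := norm_nonneg (∑' k : ℕ, Fo a lam H S β t (k + (X + 1)))
    have h5 := norm_nonneg (∑ n ∈ Finset.range (X + 1), Fo a lam H S β t n +
      ∑' k : ℕ, Fo a lam H S β t (k + (X + 1)))
    have h6 := pow_le_pow_left₀ h5 h1 2
    have h7 := pow_le_pow_left₀ h4 h2 2
    nlinarith [sq_nonneg (‖∑ n ∈ Finset.range (X + 1), Fo a lam H S β t n‖ -
      ‖∑' k : ℕ, Fo a lam H S β t (k + (X + 1))‖)]
  have hT2 : T ≤ 2 * T := by linarith
  calc ∫⁻ t in Icc T (2 * T), ENNReal.ofReal (‖DWo a lam H S β t‖ ^ 2) ≤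
      ∫⁻ t in Icc T (2 * T), ENNReal.ofReal
        (2 * ‖∑ n ∈ Finset.range (X + 1), Fo a lam H S β t n‖ ^ 2 +
        2 * (K * Real.exp (-x)) ^ 2) := lintegral_mono fun t => ENNReal.ofReal_le_ofReal (hpt t)
    _ = ENNReal.ofReal (∫ t in Icc T (2 * T),
        (2 * ‖∑ n ∈ Finset.range (X + 1), Fo a lam H S β t n‖ ^ 2 +
        2 * (K * Real.exp (-x)) ^ 2)) := by
        rw [ofReal_integral_eq_lintegral_ofReal]
        · exact hcont2.continuousOn.integrableOn_Icc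
        · exact Filter.Eventually.of_forall fun t => by positivity
    _ ≤ ENNReal.ofReal ((3468 / lam + ε) * T) := by
        refine ENNReal.ofReal_le_ofReal ?_
        rw [integral_Icc_eq_integral_Ioc, ← intervalIntegral.integral_of_le hT2,
          intervalIntegral.integral_add, intervalIntegral.integral_const_mul,
          intervalIntegral.integral_const, smul_eq_mul]
        · have hXle : (X : ℝ) ≤ Real.exp (u₆) := by
            rw [hX]
            exact Nat.floor_le (Real.exp_pos _).le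
          have hx56 : u₅ ≤ u₆ := by linarith
          have hSb : ∑ m ∈ S, β m ≤ Real.exp (u₆) :=
            (sum_beta_le hM).trans (Real.exp_le_exp.2 hx56)
          have hSb0 : 0 ≤ ∑ m ∈ S, β m := Finset.sum_nonneg fun m _ => hM.nonneg m
          have hX0 : (0 : ℝ) ≤ X := Nat.cast_nonneg X
          have h1 : (X : ℝ) ^ 2 * (X * ∑ m ∈ S, β m) ^ 2 ≤ Real.exp (6 * u₆) := by
            calc (X : ℝ) ^ 2 * (X * ∑ m ∈ S, β m) ^ 2 ≤
                (Real.exp (u₆)) ^ 2 * (Real.exp (u₆) * Real.exp (u₆)) ^ 2 := by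
                  refine mul_le_mul (pow_le_pow_left₀ hX0 hXle 2)
                    (pow_le_pow_left₀ (by positivity) ?_ 2) (by positivity) (by positivity)
                  exact mul_le_mul hXle hSb hSb0 (Real.exp_pos _).le
              _ = (Real.exp (u₆)) ^ 6 := by ring
              _ = Real.exp (6 * u₆) := by
                  rw [← Real.exp_nat_mul]
                  norm_num
          have h2 : 2 * ((17 : ℝ) ^ 2 * (T * (3 / lam * 2) +
              2 * (X : ℝ) ^ 2 * (X * ∑ m ∈ S, β m) ^ 2)) =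
              3468 / lam * T + 1156 * ((X : ℝ) ^ 2 * (X * ∑ m ∈ S, β m) ^ 2) := by
            ring
          have h3 : 2 * T - T = T := by ring
          rw [h3]
          have h4 : T * (2 * (K * Real.exp (-x)) ^ 2) ≤ T * (ε / 2) :=
            mul_le_mul_of_nonneg_left hE3 hT0.le
          have h5 : 2 * ∫ t in T..(2 * T), ‖∑ n ∈ Finset.range (X + 1), Fo a lam H S β t n‖ ^ 2 ≤
              3468 / lam * T + 1156 * ((X : ℝ) ^ 2 * (X * ∑ m ∈ S, β m) ^ 2) := by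
            rw [← h2]
            exact mul_le_mul_of_nonneg_left hhead (by norm_num)
          nlinarith
        · exact ((hcont.norm.pow 2).const_mul 2).intervalIntegrable _ _
        · exact continuous_const.intervalIntegrable _ _

theorem growth6 (K : ℝ) (hK : 0 < K) :
    ∀ᶠ T : ℝ in atTop, K * Real.exp (6 * Real.log T ^ (2 / 3 : ℝ)) ≤ T := by
  have h1 : ∀ᶠ y : ℝ in atTop, 12 ≤ y ^ (1 / 3 : ℝ) :=
    (tendsto_rpow_atTop (by norm_num)).eventually_ge_atTop 12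
  filter_upwards [Real.tendsto_log_atTop.eventually h1,
    Real.tendsto_log_atTop.eventually_ge_atTop (2 * K),
    Real.tendsto_log_atTop.eventually_gt_atTop 0, eventually_gt_atTop 0] with T e1 e2 e3 e4
  have h2 : Real.log T ^ (2 / 3 : ℝ) * Real.log T ^ (1 / 3 : ℝ) = Real.log T := by
    rw [← Real.rpow_add e3]
    norm_num
  have h3 : 0 < Real.log T ^ (2 / 3 : ℝ) := Real.rpow_pos_of_pos e3 _
  have h4 : 6 * Real.log T ^ (2 / 3 : ℝ) ≤ Real.log T / 2 := by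
    nlinarith
  have h5 : K ≤ Real.exp (Real.log T / 2) := by
    have := Real.add_one_le_exp (Real.log T / 2)
    linarith
  calc K * Real.exp (6 * Real.log T ^ (2 / 3 : ℝ)) ≤
      Real.exp (Real.log T / 2) * Real.exp (Real.log T / 2) :=
        mul_le_mul h5 (Real.exp_le_exp.2 h4) (Real.exp_pos _).le (Real.exp_pos _).le
    _ = T := by rw [← Real.exp_add, add_halves, Real.exp_log e4]

theorem growth_len : ∀ᶠ T : ℝ in atTop, 0 ≤ Real.sqrt (Real.log T) ∧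
    2 * Real.sqrt (Real.log T) ≤ Real.log T ^ (2 / 3 : ℝ) ∧
    8000 * Real.log (Real.log T) ≤ Real.log T ^ (2 / 3 : ℝ) := by
  have h1 : ∀ᶠ y : ℝ in atTop, 2 ≤ y ^ (1 / 6 : ℝ) :=
    (tendsto_rpow_atTop (by norm_num)).eventually_ge_atTop 2
  have h2 : ∀ᶠ y : ℝ in atTop, ‖Real.log y‖ ≤ (1 / 8000) * ‖y ^ (2 / 3 : ℝ)‖ :=
    (isLittleO_log_rpow_atTop (by norm_num : (0 : ℝ) < 2 / 3)).bound (by norm_num)
  filter_upwards [Real.tendsto_log_atTop.eventually h1, Real.tendsto_log_atTop.eventually h2,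
    Real.tendsto_log_atTop.eventually_gt_atTop 0] with T e1 e2 e3
  refine ⟨Real.sqrt_nonneg _, ?_, ?_⟩
  · have h3 : Real.sqrt (Real.log T) * Real.log T ^ (1 / 6 : ℝ) = Real.log T ^ (2 / 3 : ℝ) := by
      rw [Real.sqrt_eq_rpow, ← Real.rpow_add e3]
      norm_num
    have h4 := Real.sqrt_nonneg (Real.log T)
    nlinarith
  · have h3 : 0 < Real.log T ^ (2 / 3 : ℝ) := Real.rpow_pos_of_pos e3 _
    rw [Real.norm_of_nonneg h3.le] at e2
    have h4 := (Real.le_norm_self _).trans e2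
    linarith

/-- MAINB2 for `N = exp (√ log T)`. -/
theorem mainb2_sqrt : ∃ C : ℝ, 0 < C ∧ ∀ lam ε : ℝ, 1 ≤ lam → 0 < ε →
    ∃ T0 : ℝ, 10 < T0 ∧ ∀ (T : ℝ) (a : ℕ → ℝ) (S : Finset ℕ) (β : ℕ → ℝ), T0 ≤ T →
    (∀ n : ℕ, Real.log n ≤ Real.log T ^ (2 / 3 : ℝ) → |a n| ≤ 1) →
    (∀ n : ℕ, |a n| ≤ (1 + Real.log n) ^ 2) →
    Mol S β (Real.exp (Real.sqrt (Real.log T))) 1 →
    ∫⁻ t in Icc T (2 * T), ENNReal.ofReal (‖DWo a lam (HH T lam) S β t‖ ^ 2) ≤
      ENNReal.ofReal ((C / lam + ε) * T) :=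
  mainb2_gen growth_len growth6

end Pool.Agent.Lib.MP_6bc78b_nt.GP.H90
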