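import Pool.Agent.Lib.MP_6bc78b_nt.GP.H90.Diag

/-! Project GP10 (MP_6bc78b_nt), helper90: the mean square of the left line off the diagonal
`n = m`, from the sums `∑∑ β β' / [m, m']` only (row MAINB2). -/

set_option autoImplicit false

open MeasureTheory Finset

namespace Pool.Agent.Lib.MP_6bc78b_nt.GP.H90

/-- spacing of the logarithms of ratios -/
theorem log_gap {N n m n' m' : ℕ} (hn : 1 ≤ n) (hm : 1 ≤ m) (hn' : 1 ≤ n') (hm' : 1 ≤ m')
    (hnN : n ≤ N) (hmN : m ≤ N) (hnN' : n' ≤ N) (hmN' : m' ≤ N) (h : n * m' ≠ n' * m) :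
    1 / (N : ℝ) ^ 2 ≤ |(Real.log n - Real.log m) - (Real.log n' - Real.log m')| := by
  have key : ∀ x y : ℕ, 1 ≤ x → x < y → y ≤ N ^ 2 →
      1 / (N : ℝ) ^ 2 ≤ Real.log y - Real.log x := by
    intro x y hx hxy hy
    have hx0 : (0 : ℝ) < x := by exact_mod_cast hx
    have hy0 : (0 : ℝ) < y := by exact_mod_cast (by omega : 0 < y)
    have h1 : 1 - (x : ℝ) / y ≤ Real.log y - Real.log x := by
      have h2 := Real.log_le_sub_one_of_pos (div_pos hx0 hy0)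
      rw [Real.log_div hx0.ne' hy0.ne'] at h2
      linarith
    refine le_trans ?_ h1
    have h3 : 1 - (x : ℝ) / y = ((y : ℝ) - x) / y := by field_simp
    rw [h3]
    have h4 : (1 : ℝ) ≤ (y : ℝ) - x := by
      have : (x : ℝ) + 1 ≤ y := by exact_mod_cast hxy
      linarith
    have h5 : (y : ℝ) ≤ (N : ℝ) ^ 2 := by exact_mod_cast hy
    calc 1 / (N : ℝ) ^ 2 ≤ 1 / (y : ℝ) := one_div_le_one_div_of_le hy0 h5
      _ ≤ ((y : ℝ) - x) / y := div_le_div_of_nonneg_right h4 hy0.le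
  have e1 : (Real.log n - Real.log m) - (Real.log n' - Real.log m') =
      Real.log ((n * m' : ℕ) : ℝ) - Real.log ((n' * m : ℕ) : ℝ) := by
    have a1 : (n : ℝ) ≠ 0 := by exact_mod_cast (by omega : n ≠ 0)
    have a2 : (m : ℝ) ≠ 0 := by exact_mod_cast (by omega : m ≠ 0)
    have a3 : (n' : ℝ) ≠ 0 := by exact_mod_cast (by omega : n' ≠ 0)
    have a4 : (m' : ℝ) ≠ 0 := by exact_mod_cast (by omega : m' ≠ 0)
    push_cast
    rw [Real.log_mul a1 a4, Real.log_mul a3 a2]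
    ring
  rw [e1]
  have b1 : n * m' ≤ N ^ 2 := by nlinarith
  have b2 : n' * m ≤ N ^ 2 := by nlinarith
  have b3 : 1 ≤ n * m' := Nat.mul_pos hn hm'
  have b4 : 1 ≤ n' * m := Nat.mul_pos hn' hm
  rcases lt_or_gt_of_ne h with h1 | h1
  · have h2 := key _ _ b3 h1 b2
    rw [abs_sub_comm]
    exact h2.trans (le_abs_self _)
  · have h2 := key _ _ b4 h1 b1
    exact h2.trans (le_abs_self _)

/-- **MAINB2.** Mean square of the terms off the diagonal `n = m`. -/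
theorem mainb2 (S : Finset ℕ) (β : ℕ → ℝ) (hβ : ∀ m ∈ S, 0 ≤ β m) (N : ℕ)
    (hS : ∀ m ∈ S, 1 ≤ m ∧ m ≤ N) {V : ℝ}
    (hV : ∑ m ∈ S, ∑ m' ∈ S, β m * β m' / (Nat.lcm m m' : ℝ) ≤ V)
    (Ns : Finset ℕ) (hNs : ∀ n ∈ Ns, 1 ≤ n ∧ n ≤ N)
    (a : ℕ → ℂ) {Am : ℝ} (hAm : 0 ≤ Am) (ha : ∀ n ∈ Ns, ‖a n‖ ≤ Am)
    (f : ℝ → ℂ) {lam : ℝ} (hl : 0 < lam)
    (hf : ∀ u, ‖f u‖ ^ 2 ≤ ((1 + lam * |u|) ^ 2)⁻¹) {T : ℝ} (hT : 0 ≤ T) :
    ∫ t in T..(2 * T), ‖∑ n ∈ Ns, ∑ m ∈ S,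
      if n = m then 0 else a n * ((β m / √((n : ℝ) * m) : ℝ) : ℂ) *
          f (Real.log ((m : ℝ) / n)) *
          Complex.exp ((Real.log ((n : ℝ) / m) * t : ℝ) * Complex.I)‖ ^ 2 ≤
      Am ^ 2 * (T * (3 / lam * V) + 2 * (N : ℝ) ^ 2 * (N * ∑ m ∈ S, β m) ^ 2) := by
  classical
  set J := (Ns ×ˢ S).filter (fun x => x.1 ≠ x.2) with hJ
  have hJm : ∀ p ∈ J, 1 ≤ p.1 ∧ p.1 ≤ N ∧ 1 ≤ p.2 ∧ p.2 ≤ N ∧ p.1 ≠ p.2 ∧ p.2 ∈ S ∧
      p.1 ∈ Ns := by
    intro p hp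
    rw [hJ, Finset.mem_filter, Finset.mem_product] at hp
    exact ⟨(hNs _ hp.1.1).1, (hNs _ hp.1.1).2, (hS _ hp.1.2).1, (hS _ hp.1.2).2, hp.2,
      hp.1.2, hp.1.1⟩
  set c : ℕ × ℕ → ℂ := fun p => a p.1 * ((β p.2 / √((p.1 : ℝ) * p.2) : ℝ) : ℂ) *
    f (Real.log ((p.2 : ℝ) / p.1)) with hc
  set x : ℕ × ℕ → ℝ := fun p => Real.log p.1 - Real.log p.2 with hx
  have hmain := msq J c x (a := T) (b := 2 * T) (by linarith)
  have hsum : ∀ t : ℝ, ∑ p ∈ J, c p * Complex.exp (t * x p * Complex.I) =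
      ∑ n ∈ Ns, ∑ m ∈ S,
        if n = m then 0 else a n * ((β m / √((n : ℝ) * m) : ℝ) : ℂ) *
          f (Real.log ((m : ℝ) / n)) *
          Complex.exp ((Real.log ((n : ℝ) / m) * t : ℝ) * Complex.I) := by
    intro t
    rw [hJ, Finset.sum_filter, Finset.sum_product]
    refine Finset.sum_congr rfl fun n hn => Finset.sum_congr rfl fun m hm => ?_
    have a1 : (n : ℝ) ≠ 0 := by exact_mod_cast (by have := (hNs n hn).1; omega : n ≠ 0)
    have a2 : (m : ℝ) ≠ 0 := by exact_mod_cast (by have := (hS m hm).1; omega : m ≠ 0)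
    by_cases hnm : n = m
    · rw [if_neg (by simpa using hnm), if_pos hnm]
    · rw [if_pos hnm, if_neg hnm]
      show a n * ((β m / √((n : ℝ) * m) : ℝ) : ℂ) * f (Real.log ((m : ℝ) / n)) *
        Complex.exp (t * ((Real.log n - Real.log m : ℝ) : ℂ) * Complex.I) = _
      rw [← Real.log_div a1 a2]
      congr 2
      push_cast
      ring
  simp_rw [hsum] at hmain
  refine hmain.trans ?_
  have hcn : ∀ p ∈ J, ‖c p‖ ≤ Am * β p.2 * cf lam p.1 p.2 := by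
    intro p hp
    obtain ⟨h1, h2, h3, h4, h5, h6, h7⟩ := hJm p hp
    have a1 : (p.1 : ℝ) ≠ 0 := by exact_mod_cast (by omega : p.1 ≠ 0)
    have a2 : (p.2 : ℝ) ≠ 0 := by exact_mod_cast (by omega : p.2 ≠ 0)
    have hb := hβ _ h6
    have hs : 0 ≤ √((p.1 : ℝ) * p.2) := Real.sqrt_nonneg _
    have hd : 0 < 1 + lam * |Real.log p.1 - Real.log p.2| := by positivity
    have hfn : ‖f (Real.log ((p.2 : ℝ) / p.1))‖ ≤
        1 / (1 + lam * |Real.log p.1 - Real.log p.2|) := by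
      have h8 := hf (Real.log ((p.2 : ℝ) / p.1))
      rw [Real.log_div a2 a1, abs_sub_comm] at h8
      rw [Real.log_div a2 a1]
      have h9 : ((1 + lam * |Real.log p.1 - Real.log p.2|) ^ 2)⁻¹ =
          (1 / (1 + lam * |Real.log p.1 - Real.log p.2|)) ^ 2 := by
        rw [one_div, inv_pow]
      rw [h9] at h8
      exact (pow_le_pow_iff_left₀ (norm_nonneg _) (by positivity) two_ne_zero).1 h8
    rw [hc]
    show ‖a p.1 * ((β p.2 / √((p.1 : ℝ) * p.2) : ℝ) : ℂ) * f (Real.log ((p.2 : ℝ) / p.1))‖ ≤ _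
    rw [norm_mul, norm_mul, Complex.norm_real, Real.norm_of_nonneg (by positivity)]
    calc ‖a p.1‖ * (β p.2 / √((p.1 : ℝ) * p.2)) * ‖f (Real.log ((p.2 : ℝ) / p.1))‖
        ≤ Am * (β p.2 / √((p.1 : ℝ) * p.2)) *
          (1 / (1 + lam * |Real.log p.1 - Real.log p.2|)) := by
          refine mul_le_mul (mul_le_mul_of_nonneg_right (ha _ h7) (by positivity)) hfn
            (norm_nonneg _) (by positivity)
      _ = Am * β p.2 * cf lam p.1 p.2 := by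
          unfold cf
          ring
  have hcT : ∀ p ∈ J, ‖c p‖ ≤ Am * β p.2 := by
    intro p hp
    obtain ⟨h1, h2, h3, h4, h5, h6, h7⟩ := hJm p hp
    refine (hcn p hp).trans ?_
    have hb := hβ _ h6
    have h8 : cf lam p.1 p.2 ≤ 1 := by
      unfold cf
      have h9 : (1 : ℝ) ≤ √((p.1 : ℝ) * p.2) := by
        rw [show (1 : ℝ) = √1 by simp]
        refine Real.sqrt_le_sqrt ?_
        exact_mod_cast Nat.mul_pos h1 h3
      have h10 : (1 : ℝ) ≤ 1 + lam * |Real.log p.1 - Real.log p.2| := by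
        have : 0 ≤ lam * |Real.log p.1 - Real.log p.2| := by positivity
        linarith
      rw [div_div]
      rw [div_le_one (by positivity)]
      nlinarith
    calc Am * β p.2 * cf lam p.1 p.2 ≤ Am * β p.2 * 1 :=
        mul_le_mul_of_nonneg_left h8 (by positivity)
      _ = Am * β p.2 := mul_one _
  have hdiag := diag hl S id β (fun j hj => (hS j hj).1) hβ J
    (fun p hp => ⟨(hJm p hp).2.2.2.2.2.1, (hJm p hp).1, (hJm p hp).2.2.2.2.1⟩)
    (fun p => ‖c p‖) (fun p _ => norm_nonneg _) hcn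
  have hN0 : ∀ p ∈ J, (0 : ℝ) < (N : ℝ) := by
    intro p hp
    have := (hJm p hp).1
    have := (hJm p hp).2.1
    exact_mod_cast (by omega : 0 < N)
  have hterm : ∀ p ∈ J, ∀ q ∈ J,
      ‖c p‖ * ‖c q‖ * (if x p = x q then 2 * T - T else 2 / |x p - x q|) ≤
      T * (if p.1 * id q.2 = q.1 * id p.2 then ‖c p‖ * ‖c q‖ else 0) +
        2 * (N : ℝ) ^ 2 * (‖c p‖ * ‖c q‖) := by
    intro p hp q hq
    obtain ⟨h1, h2, h3, h4, h5, h6, h7⟩ := hJm p hp
    obtain ⟨g1, g2, g3, g4, g5, g6, g7⟩ := hJm q hq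
    have hN := hN0 p hp
    have hcc : 0 ≤ ‖c p‖ * ‖c q‖ := by positivity
    by_cases h : p.1 * q.2 = q.1 * p.2
    · have hxx : x p = x q := by
        have a1 : (p.1 : ℝ) ≠ 0 := by exact_mod_cast (by omega : p.1 ≠ 0)
        have a2 : (p.2 : ℝ) ≠ 0 := by exact_mod_cast (by omega : p.2 ≠ 0)
        have a3 : (q.1 : ℝ) ≠ 0 := by exact_mod_cast (by omega : q.1 ≠ 0)
        have a4 : (q.2 : ℝ) ≠ 0 := by exact_mod_cast (by omega : q.2 ≠ 0)
        have h8 : Real.log ((p.1 : ℝ) * q.2) = Real.log ((q.1 : ℝ) * p.2) := by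
          congr 1
          exact_mod_cast h
        rw [Real.log_mul a1 a4, Real.log_mul a3 a2] at h8
        show Real.log p.1 - Real.log p.2 = Real.log q.1 - Real.log q.2
        linarith
      rw [if_pos hxx, if_pos (by simpa using h)]
      have : 0 ≤ 2 * (N : ℝ) ^ 2 * (‖c p‖ * ‖c q‖) := by positivity
      nlinarith
    · have hgap := log_gap h1 h3 g1 g3 h2 h4 g2 g4 h
      have hpos : 0 < 1 / (N : ℝ) ^ 2 := by positivity
      have hxx : x p ≠ x q := by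
        intro h8
        have h9 : (Real.log p.1 - Real.log p.2) - (Real.log q.1 - Real.log q.2) = 0 :=
          sub_eq_zero.2 h8
        rw [h9, abs_zero] at hgap
        linarith
      rw [if_neg hxx, if_neg (by simpa using h), mul_zero, zero_add]
      have h8 : 2 / |x p - x q| ≤ 2 * (N : ℝ) ^ 2 := by
        have h9 : 1 / (N : ℝ) ^ 2 ≤ |x p - x q| := hgap
        calc 2 / |x p - x q| ≤ 2 / (1 / (N : ℝ) ^ 2) :=
              div_le_div_of_nonneg_left (by norm_num) hpos h9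
          _ = 2 * (N : ℝ) ^ 2 := by field_simp
      calc ‖c p‖ * ‖c q‖ * (2 / |x p - x q|) ≤ ‖c p‖ * ‖c q‖ * (2 * (N : ℝ) ^ 2) :=
            mul_le_mul_of_nonneg_left h8 hcc
        _ = _ := by ring
  refine (Finset.sum_le_sum fun p hp => Finset.sum_le_sum fun q hq => hterm p hp q hq).trans ?_
  have hsplit : ∑ p ∈ J, ∑ q ∈ J,
      (T * (if p.1 * id q.2 = q.1 * id p.2 then ‖c p‖ * ‖c q‖ else 0) +
        2 * (N : ℝ) ^ 2 * (‖c p‖ * ‖c q‖)) =
      T * (∑ p ∈ J, ∑ q ∈ J, (if p.1 * id q.2 = q.1 * id p.2 then ‖c p‖ * ‖c q‖ else 0)) +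
        2 * (N : ℝ) ^ 2 * (∑ p ∈ J, ‖c p‖) ^ 2 := by
    rw [sq (∑ p ∈ J, ‖c p‖), Finset.sum_mul_sum, Finset.mul_sum, Finset.mul_sum,
      ← Finset.sum_add_distrib]
    refine Finset.sum_congr rfl fun p _ => ?_
    rw [Finset.mul_sum, Finset.mul_sum, ← Finset.sum_add_distrib]
  rw [hsplit]
  have hgcd : ∑ j ∈ S, ∑ j' ∈ S, β j * β j' * (((id j).gcd (id j') : ℝ) / (id j * id j')) =
      ∑ m ∈ S, ∑ m' ∈ S, β m * β m' / (Nat.lcm m m' : ℝ) := by
    refine Finset.sum_congr rfl fun m hm => Finset.sum_congr rfl fun m' hm' => ?_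
    have a1 : (m : ℝ) ≠ 0 := by exact_mod_cast (by have := (hS m hm).1; omega : m ≠ 0)
    have a2 : (m' : ℝ) ≠ 0 := by exact_mod_cast (by have := (hS m' hm').1; omega : m' ≠ 0)
    have a3 : (Nat.lcm m m' : ℝ) ≠ 0 := by
      have := (hS m hm).1
      have := (hS m' hm').1
      exact_mod_cast (Nat.lcm_pos (by omega) (by omega)).ne'
    have h1 : ((m.gcd m' : ℕ) : ℝ) * (Nat.lcm m m' : ℝ) = m * m' := by
      exact_mod_cast Nat.gcd_mul_lcm m m'
    show β m * β m' * (((m.gcd m' : ℕ) : ℝ) / ((m : ℝ) * (m' : ℝ))) = _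
    rw [← h1]
    have a4 : ((m.gcd m' : ℕ) : ℝ) ≠ 0 := by
      have := (hS m hm).1
      exact_mod_cast (Nat.gcd_pos_of_pos_left _ (by omega)).ne'
    field_simp
  have h1 : ∑ p ∈ J, ∑ q ∈ J, (if p.1 * id q.2 = q.1 * id p.2 then ‖c p‖ * ‖c q‖ else 0) ≤
      3 * Am ^ 2 / lam * V := by
    refine hdiag.trans ?_
    refine mul_le_mul_of_nonneg_left ?_ (by positivity)
    exact (le_of_eq hgcd).trans hV
  have h2 : ∑ p ∈ J, ‖c p‖ ≤ Am * (N * ∑ m ∈ S, β m) := by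
    calc ∑ p ∈ J, ‖c p‖ ≤ ∑ p ∈ J, Am * β p.2 := Finset.sum_le_sum hcT
      _ ≤ ∑ p ∈ (Finset.Icc 1 N) ×ˢ S, Am * β p.2 := by
          refine Finset.sum_le_sum_of_subset_of_nonneg ?_ ?_
          · intro p hp
            obtain ⟨h1, h2, h3, h4, h5, h6, h7⟩ := hJm p hp
            exact Finset.mem_product.2 ⟨Finset.mem_Icc.2 ⟨h1, h2⟩, h6⟩
          · intro p hp _
            exact mul_nonneg hAm (hβ _ (Finset.mem_product.1 hp).2)
      _ = Am * (N * ∑ m ∈ S, β m) := by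
          rw [Finset.sum_product]
          simp only [Finset.sum_const, Nat.card_Icc, Nat.add_sub_cancel, nsmul_eq_mul,
            ← Finset.mul_sum]
          ring
  have h3 : 0 ≤ ∑ p ∈ J, ‖c p‖ := Finset.sum_nonneg fun _ _ => norm_nonneg _
  have h4 : (∑ p ∈ J, ‖c p‖) ^ 2 ≤ (Am * (N * ∑ m ∈ S, β m)) ^ 2 :=
    pow_le_pow_left₀ h3 h2 2
  have h5 := mul_le_mul_of_nonneg_left h1 hT
  have h6 := mul_le_mul_of_nonneg_left h4 (by positivity : 0 ≤ 2 * (N : ℝ) ^ 2)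
  calc _ ≤ T * (3 * Am ^ 2 / lam * V) + 2 * (N : ℝ) ^ 2 * (Am * (N * ∑ m ∈ S, β m)) ^ 2 :=
        add_le_add h5 h6
    _ = _ := by ring

end Pool.Agent.Lib.MP_6bc78b_nt.GP.H90
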