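import Mathlib

/-! Project GP10 (MP_6bc78b_nt), helper90: mean squares of exponential polynomials; the sum over
the ratios; greatest common divisors. -/

set_option autoImplicit false

open MeasureTheory Set Finset

namespace Pool.Agent.Lib.MP_6bc78b_nt.GP.H90

/-! ### MSQ -/

theorem exp_int (a b y : ℝ) (hab : a ≤ b) :
    ‖∫ t in a..b, Complex.exp (t * y * Complex.I)‖ ≤ if y = 0 then b - a else 2 / |y| := by
  split_ifs with h
  · subst h
    simp only [Complex.ofReal_zero, mul_zero, zero_mul, Complex.exp_zero]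
    rw [intervalIntegral.integral_const, norm_smul, norm_one, mul_one, Real.norm_eq_abs,
      abs_of_nonneg (by linarith)]
  · have hc : (y * Complex.I : ℂ) ≠ 0 :=
      mul_ne_zero (Complex.ofReal_ne_zero.2 h) Complex.I_ne_zero
    have h1 : ∀ t : ℝ, Complex.exp (t * y * Complex.I) = Complex.exp (y * Complex.I * t) := by
      intro t
      congr 1
      ring
    simp_rw [h1]
    rw [integral_exp_mul_complex hc, norm_div, norm_mul, Complex.norm_I, mul_one,
      Complex.norm_real, Real.norm_eq_abs]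
    refine div_le_div_of_nonneg_right ?_ (abs_nonneg y)
    refine (norm_sub_le _ _).trans ?_
    have h2 : ∀ t : ℝ, ‖Complex.exp (y * Complex.I * t)‖ = 1 := by
      intro t
      rw [Complex.norm_exp]
      have : (y * Complex.I * t : ℂ).re = 0 := by simp
      rw [this, Real.exp_zero]
    rw [h2, h2]
    norm_num

/-- The mean square of an exponential polynomial. -/
theorem msq {ι : Type*} (J : Finset ι) (c : ι → ℂ) (x : ι → ℝ) {a b : ℝ} (hab : a ≤ b) :
    ∫ t in a..b, ‖∑ j ∈ J, c j * Complex.exp (t * x j * Complex.I)‖ ^ 2 ≤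
      ∑ j ∈ J, ∑ k ∈ J, ‖c j‖ * ‖c k‖ * (if x j = x k then b - a else 2 / |x j - x k|) := by
  have h1 : ∀ t : ℝ, ((‖∑ j ∈ J, c j * Complex.exp (t * x j * Complex.I)‖ ^ 2 : ℝ) : ℂ) =
      ∑ j ∈ J, ∑ k ∈ J, c j * (starRingEnd ℂ) (c k) *
        Complex.exp (t * ((x j - x k : ℝ) : ℂ) * Complex.I) := by
    intro t
    rw [← Complex.normSq_eq_norm_sq, Complex.normSq_eq_conj_mul_self, mul_comm, map_sum,
      Finset.sum_mul_sum]
    refine sum_congr rfl fun j _ => sum_congr rfl fun k _ => ?_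
    rw [map_mul, ← Complex.exp_conj, mul_mul_mul_comm, ← Complex.exp_add]
    congr 2
    rw [map_mul, map_mul, Complex.conj_ofReal, Complex.conj_ofReal, Complex.conj_I]
    push_cast
    ring
  have hcont : ∀ y : ℝ, Continuous fun t : ℝ => Complex.exp (t * (y : ℂ) * Complex.I) := by
    intro y
    fun_prop
  have h2 : ((∫ t in a..b, ‖∑ j ∈ J, c j * Complex.exp (t * x j * Complex.I)‖ ^ 2 : ℝ) : ℂ) =
      ∑ j ∈ J, ∑ k ∈ J, c j * (starRingEnd ℂ) (c k) *
        ∫ t in a..b, Complex.exp (t * ((x j - x k : ℝ) : ℂ) * Complex.I) := by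
    rw [← intervalIntegral.integral_ofReal]
    simp_rw [h1]
    rw [intervalIntegral.integral_finsetSum]
    · refine sum_congr rfl fun j _ => ?_
      rw [intervalIntegral.integral_finsetSum]
      · refine sum_congr rfl fun k _ => ?_
        rw [intervalIntegral.integral_const_mul]
      · intro k _
        exact ((hcont _).const_mul _).intervalIntegrable _ _
    · intro j _
      exact (continuous_finsetSum _ fun k _ => (hcont _).const_mul _).intervalIntegrable _ _
  have h3 : ‖((∫ t in a..b, ‖∑ j ∈ J, c j * Complex.exp (t * x j * Complex.I)‖ ^ 2 : ℝ) : ℂ)‖ ≤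
      ∑ j ∈ J, ∑ k ∈ J, ‖c j‖ * ‖c k‖ * (if x j = x k then b - a else 2 / |x j - x k|) := by
    rw [h2]
    refine (norm_sum_le _ _).trans (sum_le_sum fun j _ => ?_)
    refine (norm_sum_le _ _).trans (sum_le_sum fun k _ => ?_)
    rw [norm_mul, norm_mul, RCLike.norm_conj]
    refine mul_le_mul_of_nonneg_left ?_ (by positivity)
    have h4 := exp_int a b (x j - x k) hab
    by_cases h5 : x j = x k
    · rw [if_pos h5]
      rwa [if_pos (sub_eq_zero.2 h5)] at h4
    · rw [if_neg h5]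
      rwa [if_neg (sub_ne_zero.2 h5)] at h4
  rw [Complex.norm_real, Real.norm_eq_abs] at h3
  exact (le_abs_self _).trans h3

/-! ### SG -/

/-- `1 / (lam (1 + lam u))` -/
noncomputable def Fg (lam u : ℝ) : ℝ := 1 / (lam * (1 + lam * u))

theorem Fg_sub {lam u v : ℝ} (hl : 0 < lam) (hu : 0 ≤ u) (huv : u ≤ v) :
    (v - u) / (1 + lam * v) ^ 2 ≤ Fg lam u - Fg lam v := by
  unfold Fg
  have h1 : 0 < 1 + lam * u := by positivity
  have h2 : 0 < 1 + lam * v := by nlinarith
  have h3 : 1 / (lam * (1 + lam * u)) - 1 / (lam * (1 + lam * v)) =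
      (v - u) / ((1 + lam * u) * (1 + lam * v)) := by
    field_simp
    ring
  rw [h3]
  refine div_le_div_of_nonneg_left (by linarith) (by positivity) ?_
  rw [sq]
  exact mul_le_mul_of_nonneg_right (by nlinarith) h2.le

theorem log_step {k : ℕ} (hk : 1 ≤ k) :
    1 / ((k : ℝ) + 1) ≤ Real.log ((k : ℝ) + 1) - Real.log k := by
  have hk0 : (0 : ℝ) < k := by exact_mod_cast hk
  rw [← Real.log_div (by positivity) hk0.ne']
  have h1 := Real.one_sub_inv_le_log_of_pos (x := ((k : ℝ) + 1) / k) (by positivity)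
  refine le_trans (le_of_eq ?_) h1
  field_simp
  ring

theorem sg_up {lam : ℝ} (hl : 0 < lam) {g : ℕ} (hg : 1 ≤ g) (n : ℕ) :
    ∑ k ∈ Finset.Ico (g + 1) (g + 1 + n), 1 / (k : ℝ) / (1 + lam * |Real.log k - Real.log g|) ^ 2 ≤
      Fg lam 0 - Fg lam (Real.log ((g + n : ℕ) : ℝ) - Real.log g) := by
  induction n with
  | zero => simp
  | succ n ih =>
    rw [← add_assoc, Finset.sum_Ico_succ_top (by omega)]
    have hg0 : (0 : ℝ) < g := by exact_mod_cast hg
    have h1 : Real.log g ≤ Real.log ((g + n : ℕ) : ℝ) := by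
      refine Real.log_le_log hg0 ?_
      push_cast
      linarith [(Nat.cast_nonneg n : (0 : ℝ) ≤ n)]
    have h2 := log_step (k := g + n) (by omega)
    have h3 : (((g + 1 + n : ℕ) : ℝ)) = ((g + n : ℕ) : ℝ) + 1 := by
      push_cast
      ring
    have h4 : (((g + (n + 1) : ℕ) : ℝ)) = ((g + n : ℕ) : ℝ) + 1 := by
      push_cast
      ring
    rw [h3, h4]
    have h5 : 0 ≤ Real.log ((g + n : ℕ) : ℝ) - Real.log g := by linarith
    have hp : (0 : ℝ) < 1 / (((g + n : ℕ) : ℝ) + 1) := by positivity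
    have h6 := Fg_sub (lam := lam) hl h5
      (v := Real.log (((g + n : ℕ) : ℝ) + 1) - Real.log g) (by linarith)
    rw [abs_of_nonneg (by linarith : 0 ≤ Real.log (((g + n : ℕ) : ℝ) + 1) - Real.log g)]
    have h7 : 1 / (((g + n : ℕ) : ℝ) + 1) /
        (1 + lam * (Real.log (((g + n : ℕ) : ℝ) + 1) - Real.log g)) ^ 2 ≤
        (Real.log (((g + n : ℕ) : ℝ) + 1) - Real.log g - (Real.log ((g + n : ℕ) : ℝ) - Real.log g)) /
        (1 + lam * (Real.log (((g + n : ℕ) : ℝ) + 1) - Real.log g)) ^ 2 :=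
      div_le_div_of_nonneg_right (by linarith) (by positivity)
    linarith

theorem sg_down {lam : ℝ} (hl : 0 < lam) {g : ℕ} (n : ℕ) (hn : n + 1 ≤ g) :
    ∑ k ∈ Finset.Ico 1 (n + 1), 1 / (k : ℝ) / (1 + lam * |Real.log k - Real.log g|) ^ 2 ≤
      2 * (Fg lam (Real.log g - Real.log ((n + 1 : ℕ) : ℝ)) - Fg lam (Real.log g)) := by
  induction n with
  | zero => simp
  | succ n ih =>
    rw [Finset.sum_Ico_succ_top (by omega)]
    have ih' := ih (by omega)
    have hn1 : (0 : ℝ) < ((n + 1 : ℕ) : ℝ) := by positivity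
    have h2 := log_step (k := n + 1) (by omega)
    have h3 : (((n + 1 + 1 : ℕ) : ℝ)) = ((n + 1 : ℕ) : ℝ) + 1 := by
      push_cast
      ring
    have hg : ((n + 1 : ℕ) : ℝ) + 1 ≤ g := by
      have : ((n + 1 + 1 : ℕ) : ℝ) ≤ g := by exact_mod_cast hn
      linarith
    have h1 : Real.log (((n + 1 : ℕ) : ℝ) + 1) ≤ Real.log g :=
      Real.log_le_log (by positivity) hg
    have hp : (0 : ℝ) < 1 / (((n + 1 : ℕ) : ℝ) + 1) := by positivity
    have h6 := Fg_sub (lam := lam) hl (u := Real.log g - Real.log (((n + 1 : ℕ) : ℝ) + 1))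
      (v := Real.log g - Real.log ((n + 1 : ℕ) : ℝ)) (by linarith) (by linarith)
    rw [abs_of_nonpos (by linarith : Real.log ((n + 1 : ℕ) : ℝ) - Real.log g ≤ 0), h3]
    have h8 : 1 / ((n + 1 : ℕ) : ℝ) ≤ 2 * (Real.log (((n + 1 : ℕ) : ℝ) + 1) -
        Real.log ((n + 1 : ℕ) : ℝ)) := by
      have h9 : 1 / ((n + 1 : ℕ) : ℝ) ≤ 2 * (1 / (((n + 1 : ℕ) : ℝ) + 1)) := by
        rw [mul_one_div, div_le_div_iff₀ hn1 (by positivity)]
        have : (1 : ℝ) ≤ ((n + 1 : ℕ) : ℝ) := by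
          push_cast
          linarith [(Nat.cast_nonneg n : (0 : ℝ) ≤ n)]
        linarith
      linarith
    have h7 : 1 / ((n + 1 : ℕ) : ℝ) /
        (1 + lam * -(Real.log ((n + 1 : ℕ) : ℝ) - Real.log g)) ^ 2 ≤
        2 * ((Real.log g - Real.log ((n + 1 : ℕ) : ℝ) -
          (Real.log g - Real.log (((n + 1 : ℕ) : ℝ) + 1))) /
        (1 + lam * (Real.log g - Real.log ((n + 1 : ℕ) : ℝ))) ^ 2) := by
      rw [neg_sub, ← mul_div_assoc]
      exact div_le_div_of_nonneg_right (by linarith) (by positivity)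
    linarith

/-- **SG.** `∑_{k ≠ g} (1/k) (1 + lam |log (k/g)|)^(-2) ≤ 3 / lam`. -/
theorem sg {lam : ℝ} (hl : 0 < lam) {g : ℕ} (hg : 1 ≤ g) (s : Finset ℕ)
    (hs : ∀ k ∈ s, 1 ≤ k ∧ k ≠ g) :
    ∑ k ∈ s, 1 / (k : ℝ) / (1 + lam * |Real.log k - Real.log g|) ^ 2 ≤ 3 / lam := by
  classical
  obtain ⟨N, hN⟩ : ∃ N, ∀ k ∈ s, k < g + 1 + N := by
    refine ⟨s.sup id, fun k hk => ?_⟩
    have : k ≤ s.sup id := Finset.le_sup (f := id) hk
    omega
  have h0 : ∀ k : ℕ, 0 ≤ 1 / (k : ℝ) / (1 + lam * |Real.log k - Real.log g|) ^ 2 := by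
    intro k
    positivity
  have hF0 : Fg lam 0 = 1 / lam := by
    unfold Fg
    simp
  have hFn : ∀ u : ℝ, 0 ≤ u → 0 ≤ Fg lam u := by
    intro u hu
    unfold Fg
    positivity
  have hsub : s ⊆ Finset.Ico 1 g ∪ Finset.Ico (g + 1) (g + 1 + N) := by
    intro k hk
    obtain ⟨h1, h2⟩ := hs k hk
    rw [Finset.mem_union, Finset.mem_Ico, Finset.mem_Ico]
    have := hN k hk
    omega
  refine (Finset.sum_le_sum_of_subset_of_nonneg hsub fun k _ _ => h0 k).trans ?_
  have hdis : Disjoint (Finset.Ico 1 g) (Finset.Ico (g + 1) (g + 1 + N)) := by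
    rw [Finset.disjoint_left]
    intro k hk hk'
    rw [Finset.mem_Ico] at hk hk'
    omega
  rw [Finset.sum_union hdis]
  have hup := sg_up hl hg N
  have hdown : ∑ k ∈ Finset.Ico 1 g, 1 / (k : ℝ) / (1 + lam * |Real.log k - Real.log g|) ^ 2 ≤
      2 * (Fg lam 0 - Fg lam (Real.log g)) := by
    obtain ⟨n, rfl⟩ : ∃ n, g = n + 1 := ⟨g - 1, by omega⟩
    have := sg_down hl n (le_refl (n + 1))
    rwa [sub_self] at this
  have hg0 : (0 : ℝ) < g := by exact_mod_cast hg
  have h1 := hFn (Real.log g) (Real.log_nonneg (by exact_mod_cast hg))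
  have h2 := hFn (Real.log ((g + N : ℕ) : ℝ) - Real.log g) (by
    have : Real.log g ≤ Real.log ((g + N : ℕ) : ℝ) := by
      refine Real.log_le_log hg0 ?_
      push_cast
      linarith [(Nat.cast_nonneg N : (0 : ℝ) ≤ N)]
    linarith)
  rw [hF0] at hup hdown
  have h3 : 3 / lam = 2 * (1 / lam) + 1 / lam := by ring
  rw [h3]
  linarith

end Pool.Agent.Lib.MP_6bc78b_nt.GP.H90
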